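import Pool.Agent.Q51.SZ.All

/-!
# Sections of 100 percent of the everywhere locally soluble twists of Fermat curves, over all number fields of
# degree prime to `q`

Let `n` be odd, `1 < m`, `m ∣ n`, let `a, b` be integers such that `a X ^ n + b` is irreducible over `ℚ`, and let
`C_D : D y ^ m = a x ^ n + b w ^ n`, a smooth curve in the weighted projective plane of weights `(1, 1, n/m)` (for
`m = n` the twists of a Fermat curve).  Its genus is at least 2 unless `n = m = 3`.

**Theorem.** For 100 percent of the everywhere locally soluble curves `C_D` with squarefree `D` (all but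
`C (log X)^(-δ) E(X)`, if `E(X)` is the number of them with `|D| ≤ X`) the following holds for ALL number fields `K`
such that some prime factor `q` of `m` does not divide `[K : ℚ]`, at the same time:

* `C_D(K)` is empty;
* the fundamental groups over `K` of `(C_D)_K`, of its open subcurves and of all smooth curves over `K` which
  dominate it have no sections over `G_K`;
* the geometrically pro-`q` fundamental group over `K` of the curve `D y ^ q = a x ^ q + b w ^ q` has no section.

If some `C_D` is everywhere locally soluble, then `E(X) ≥ c X / log X * exp (∑ 1/l)` for large `X`, the sum over the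
primes `l ≤ X` modulo which `a X ^ n + b` has a zero.

So the section conjecture holds for the curves `(C_D)_K`, for all these `K` at the same time, although `C_D` has
points over all completions of `ℚ` (so that sections exist over all completions of all `K`).

The fundamental group is described through valuations.  Let `U` be a smooth geometrically connected curve over
`K` with function field `F`, let `Ω` be an algebraic closure of `F`, and let `F_U` be the maximal extension of `F`
inside `Ω` which is unramified over the closed points of `U`, that is, over their local rings, which are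
valuation rings of `F`.  Then `π₁(U) = Gal(F_U/F)`, and the map `π₁(U) → G_K` is the restriction of automorphisms to
the algebraic closure of `K` in `Ω`.

Proof.  `C_D` maps to the curve `D y ^ q = f(x)`, `f = a X ^ q + b`, with the branch points `(e, 0)`, `f(e) = 0`.  Let
`s` be a section over `K`; let `A` be an algebraic closure of `ℚ`, `H = Gal(A/K)`.  The ratios `(x - e) / (x - e')` are
`q`-th powers of functions `z` on the maximal geometrically pro-`q` covering, and `s` yields for all `e, e'` the class
`κ(e, e')` in `A^* / q` on the field `K(e, e')` which is fixed by all `σ ∈ H`; the family is equivariant under `H`.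
Local theory (helper157's theory of pro-`ℓ` sections, and its variant here): let `v` be a prime of `K` above a prime
`l ∤ B`.  If `D` has at `v` a valuation prime to `q`, then `s` is at `v`, as far as these classes are concerned, the
section of a branch point `(e, 0)` with `e ∈ K_v`; if the valuation of `D` at `v` is divisible by `q`, then the classes
are unramified at `v`, and if moreover `l ∣ D`, then `q` divides the ramification index of `v` over `l`.  The norms
from `K` to `ℚ` of the classes, raised to the power `d'`, `d' [K : ℚ] ≡ 1 mod q`, are classes over `ℚ` which at the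
primes `l ∤ B D` are unramified and at the primes `l ∣ D`, `l ∤ B`, are those of a divisor of degree `≡ 1 mod q`
supported in the branch points and rational over `ℚ_l`.  Up to finitely many types such a family is given by an
element `δ` of `L = ℚ[X]/(a X ^ q + b)`, and the number of the `D` for which such an element exists is bounded by
the large sieve (project ZC, where such elements were obtained from zero-cycles).

The definitions `CPoint`, `Soluble`, `sumRoots` are in `Pool/Agent/Q51/ZC/Zer.lean`, `numLocSoluble` is in
`Pool/Agent/Q51/ZC/Zer4.lean`, and `count` in `Pool/Agent/Q51/SE/Def.lean`.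

(helper51, with helper14, helper24, helper26, helper38, helper52, helper124, helper150, helper157, helper161,
helper162, helper166, helper182, helper198, helper277, helper285, and for the projects ZC, SE, EL, EB of helper26,
helper38, helper52, helper58, helper65, helper68, helper86, helper91, helper92, helper150, helper154, helper187,
helper190, helper195, helper198, helper210, helper239, helper241, helper247, helper251, helper257, helper277,
helper299.)
-/

set_option autoImplicit false

open Polynomial

namespace Pool.Agent.Results.MP_2f3286_ag.FermatTwistsOverAllFields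

open Pool.Agent.Q51.ZC (CPoint Soluble numLocSoluble sumRoots)
open Pool.Agent.Q51.SE (count)

section definitions

variable (ℓ : ℕ) (k F Ω : Type) [Field k] [Field F] [Field Ω] [Algebra k F] [Algebra F Ω]
  [Algebra k Ω]

/-- The inertia group of the valuation ring `W` of `Ω`, as a subgroup of `Gal(Ω/F)`: the
automorphisms of `Ω` over `F` that map `W` onto itself and act as the identity on its residue
field. -/
noncomputable def inertia (W : ValuationSubring Ω) : Subgroup (Ω ≃ₐ[F] Ω) :=
  (W.inertiaSubgroup F).map (W.decompositionSubgroup F).subtype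

/-- `F_U`, for a set `U` of valuation rings of `F`: the elements of `Ω` fixed by the inertia groups
of all valuation rings `W` of `Ω` with `W ∩ F ∈ U`.  If `Ω` is an algebraic closure of a field `F`
of characteristic zero, this is the maximal extension of `F` in `Ω` unramified over `U`. -/
noncomputable def unramified (U : Set (ValuationSubring F)) : IntermediateField F Ω :=
  ⨅ W : {W : ValuationSubring Ω // W.comap (algebraMap F Ω) ∈ U},
    IntermediateField.fixedField (inertia F Ω W.1)

/-- `k̄ F`, the compositum of `F` and of the algebraic closure of `k` in `Ω`. -/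
noncomputable def geomField : IntermediateField F Ω :=
  IntermediateField.adjoin F (algebraicClosure k Ω : Set Ω)

/-- The algebraic extension `L` of `K` in `Ω` is unramified at all valuation rings of `Ω` that
contain `k`: every nonzero element of `L` has the same valuation as an element of `K`.  (If `K` is
a function field of one variable over the algebraic closure of `k` and `k` has characteristic zero,
then this says that `L/K` is unramified over all points of the smooth projective curve.) -/
def Unramified {k K Ω : Type} [Field k] [Field K] [Field Ω] [Algebra k Ω] [Algebra K Ω]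
    (L : IntermediateField K Ω) : Prop :=
  ∀ W : ValuationSubring Ω, (∀ c : k, algebraMap k Ω c ∈ W) → ∀ z ∈ L, z ≠ 0 →
    ∃ t : K, t ≠ 0 ∧ z / algebraMap K Ω t ∈ W ∧ (z / algebraMap K Ω t)⁻¹ ∈ W

/-- `L/K` is a finite Galois extension whose degree is a power of `ℓ`. -/
def FiniteProEll (ℓ : ℕ) {K Ω : Type} [Field K] [Field Ω] [Algebra K Ω]
    (L : IntermediateField K Ω) : Prop :=
  FiniteDimensional K L ∧ IsGalois K L ∧ ∃ m : ℕ, Module.finrank K L = ℓ ^ m

/-- The maximal unramified pro-`ℓ` extension of `K` in `Ω`: the compositum of the finite Galois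
extensions of `K` whose degree is a power of `ℓ` and which are unramified. -/
noncomputable def maxProEll (ℓ : ℕ) (k K Ω : Type) [Field k] [Field K] [Field Ω] [Algebra k Ω]
    [Algebra K Ω] : IntermediateField K Ω :=
  ⨆ L : {L : IntermediateField K Ω // FiniteProEll ℓ L ∧ Unramified (k := k) L}, L.1

/-- `M`, the maximal unramified pro-`ℓ` extension of `k̄ F` in `Ω`, as an extension of `F`. -/
noncomputable def proEllField : IntermediateField F Ω :=
  (maxProEll ℓ k (geomField k F Ω) Ω).restrictScalars F

/-- The map `τ : M → M` acts as `σ : K → K` on the elements that the fields `K` and `M` have in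
common when they are regarded as subfields of `Ω` through `i` and `j`. -/
def ActsAs {K M Ω : Type} [Field K] [Field M] [Field Ω] (i : K →+* Ω) (j : M →+* Ω) (σ : K → K)
    (τ : M → M) : Prop :=
  ∀ c z, j z = i c → j (τ z) = i (σ c)

/-- Let `k ⊆ K ⊆ Ω` and `F ⊆ N ⊆ Ω` be fields.  A splitting of `Gal(N/F) → Gal(K/k)`: a continuous
homomorphism `s` from `Gal(K/k)` to `Gal(N/F)` such that `s(σ)` acts as `σ` on the elements of
`K ∩ N`. -/
structure Splitting (K N : Type) [Field K] [Field N] [Algebra k K] [Algebra F N] [Algebra K Ω]
    [Algebra N Ω] where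
  /-- the homomorphism `Gal(K/k) → Gal(N/F)` -/
  toHom : (K ≃ₐ[k] K) →* (N ≃ₐ[F] N)
  cont : Continuous toHom
  compat : ∀ σ : K ≃ₐ[k] K, ActsAs (algebraMap K Ω) (algebraMap N Ω) σ (toHom σ)

/-- There are no sections of `Gal(N/F) → G_k`, where `G_k = Gal(k̄/k)` and `k̄` is the algebraic
closure of `k` in `Ω`.  For `N = F_U` these are the sections of `π₁(U) → G_k`. -/
def NoSplitting (N : IntermediateField F Ω) : Prop :=
  IsEmpty (Splitting k F Ω (algebraicClosure k Ω) N)

end definitions

section curves

/-- Let `F` be any field over `K` that contains a point `(x, y)` of the affine curve `D y ^ m = a x ^ n + b`, for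
instance the function field of `(C_D)_K`, and let `Ω` be an algebraic closure of `F`.  Then for every set `U` of
valuation rings of `F` over `K` there is no section of `π₁(U) → G_K`.  If `F` is the function field of the curve,
such `U` are given by `(C_D)_K` and by all its open subcurves. -/
def NoSection (a b : ℤ) (n m : ℕ) (D : ℤ) (K : Type) [Field K] : Prop :=
  ∀ (F Ω : Type) [Field F] [Field Ω] [Algebra K F] [Algebra F Ω] [Algebra K Ω]
    [IsScalarTower K F Ω] [IsAlgClosure F Ω] (x y : F) (U : Set (ValuationSubring F)),
    (D : F) * y ^ m = a * x ^ n + b → (∀ O ∈ U, ∀ c : K, algebraMap K F c ∈ O) →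
      NoSplitting K F Ω (unramified F Ω U)

/-- Let `F = K(x, y)` be the function field over `K` of the curve `D y ^ q = a x ^ q + b`, let `Ω` be an algebraic
closure of `F`, and let `M` be the maximal unramified pro-`q` extension of `K̄ F`.  For all extensions `N ⊇ M` of `F`
in `Ω`, in particular for `N = M`, there is no section of `Gal(N/F) → G_K`. -/
def NoProEllSection (a b : ℤ) (q : ℕ) (D : ℤ) (K : Type) [Field K] : Prop :=
  ∀ (F Ω : Type) [Field F] [Field Ω] [Algebra K F] [Algebra F Ω] [Algebra K Ω]
    [IsScalarTower K F Ω] [IsAlgClosure F Ω] (x y : F), Transcendental K x →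
    (D : F) * y ^ q = a * x ^ q + b →
    IntermediateField.adjoin K {x, y} = (⊤ : IntermediateField K F) →
    ∀ N : IntermediateField F Ω, proEllField q K F Ω ≤ N → NoSplitting K F Ω N

/-- Over `K` there are no points and no sections: `C_D(K)` is empty, there are no sections of the fundamental
groups over `K` of open subcurves of `C_D` and of the smooth curves over `K` that dominate it, and the
geometrically pro-`q` fundamental group over `K` of the curve `D y ^ q = a x ^ q + b` has no section. -/
def NothingOver (a b : ℤ) (n m q : ℕ) (D : ℤ) (K : Type) [Field K] : Prop :=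
  IsEmpty (CPoint a b n m D K) ∧ NoSection a b n m D K ∧ NoProEllSection a b q D K

/-- The integers `D` which do not have the following property: for all prime factors `q` of `m` and all number
fields `K` of a degree prime to `q` there are no points and no sections over `K`. -/
def Exceptional (a b : ℤ) (n m : ℕ) (D : ℤ) : Prop :=
  ¬ ∀ q : ℕ, q.Prime → q ∣ m → ∀ (K : Type) [Field K] [NumberField K],
    ¬ q ∣ Module.finrank ℚ K → NothingOver a b n m q D K

/-- The number of the squarefree `D` with `|D| ≤ X` for which `C_D` is everywhere locally soluble, but `D` is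
exceptional. -/
noncomputable def numExceptional (a b : ℤ) (n m : ℕ) (X : ℝ) : ℝ :=
  count (fun D => Soluble a b n m D ∧ Exceptional a b n m D) X

end curves

lemma iSup_congr_prop {α : Type} [CompleteLattice α] {P Q : α → Prop} (h : ∀ L, P L ↔ Q L) :
    (⨆ L : {L // P L}, L.1) = ⨆ L : {L // Q L}, L.1 := by
  have h1 : P = Q := funext fun L => propext (h L)
  subst h1
  rfl

lemma proEll_eq (ℓ : ℕ) (k F Ω : Type) [Field k] [Field F] [Field Ω] [Algebra k F] [Algebra F Ω]
    [Algebra k Ω] : proEllField ℓ k F Ω = Pool.Agent.Y157.PS.geomPro ℓ k F Ω := by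
  unfold proEllField Pool.Agent.Y157.PS.geomPro maxProEll Pool.Agent.Y157.PS.maxPro
  congr 1
  refine iSup_congr_prop fun L => ?_
  constructor
  · rintro ⟨⟨h1, h2, h3⟩, h4⟩
    refine ⟨⟨h1, h2, h3⟩, fun W hW z hz hz0 => ?_⟩
    obtain ⟨t, ht, h5, h6⟩ := h4 W hW z hz hz0
    exact ⟨t, ht, div_ne_zero hz0 ((_root_.map_ne_zero _).2 ht), h5, h6⟩
  · rintro ⟨⟨h1, h2, h3⟩, h4⟩
    refine ⟨⟨h1, h2, h3⟩, fun W hW z hz hz0 => ?_⟩
    obtain ⟨t, ht, -, h5, h6⟩ := h4 W hW z hz hz0
    exact ⟨t, ht, h5, h6⟩

lemma nothing {a b : ℤ} {n m q : ℕ} {D : ℤ} {K : Type} [Field K]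
    (h1 : ¬ Nonempty (CPoint a b n m D K)) (h2 : ¬ Pool.Agent.Q51.SZ.HasSec a b n m D K)
    (h3 : ¬ Pool.Agent.Q51.SZ.HasPro a b q D K) : NothingOver a b n m q D K := by
  refine ⟨not_nonempty_iff.mp h1, ?_, ?_⟩
  · intro F Ω _ _ _ _ _ _ _ x y U hxy hU
    have hcl : IsAlgClosed Ω := IsAlgClosure.isAlgClosed F
    have halg : Algebra.IsAlgebraic F Ω := IsAlgClosure.isAlgebraic
    exact ⟨fun s => h2 ⟨F, Ω, inferInstance, inferInstance, inferInstance, inferInstance,
      inferInstance, inferInstance, hcl, halg, U, x, y, hU, hxy, ⟨⟨s.toHom, s.cont, s.compat⟩⟩⟩⟩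
  · intro F Ω _ _ _ _ _ _ _ x y hx hxy hF N hN
    have hcl : IsAlgClosed Ω := IsAlgClosure.isAlgClosed F
    have halg : Algebra.IsAlgebraic F Ω := IsAlgClosure.isAlgebraic
    rw [proEll_eq] at hN
    exact ⟨fun s => h3 ⟨F, Ω, inferInstance, inferInstance, inferInstance, inferInstance,
      inferInstance, inferInstance, hcl, halg, x, y, N, s.toHom, hx, hxy, hF, hN, s.cont,
      s.compat⟩⟩

/-- Let `n` be odd, `1 < m`, `m ∣ n`, and let `a X ^ n + b` be irreducible over `ℚ`.  For 100 percent of the everywhere
locally soluble curves `C_D : D y ^ m = a x ^ n + b w ^ n` with squarefree `D` (all but `C (log X)^(-δ) E(X)` of the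
`E(X)` curves with `|D| ≤ X`) the following holds for all prime factors `q` of `m` and all number fields `K` whose
degree is prime to `q`: `C_D` has no point over `K`, the fundamental groups over `K` of the open subcurves of `C_D`
and of all smooth curves over `K` which dominate it have no sections, and the geometrically pro-`q` fundamental
group over `K` of the curve `D y ^ q = a x ^ q + b` has no section.  If `E` is not zero, then
`E(X) ≥ c X / log X * exp (∑ 1/l)` for large `X`, the sum over the primes `l ≤ X` modulo which `a X ^ n + b` has a
zero. -/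
theorem result (a b : ℤ) (n m : ℕ) (hn : Odd n) (hm : 1 < m) (hmn : m ∣ n)
    (hirr : Irreducible (C (a : ℚ) * X ^ n + C (b : ℚ))) :
    (∃ δ C : ℝ, 0 < δ ∧ ∀ X : ℝ, 3 ≤ X →
      numExceptional a b n m X ≤ C * Real.log X ^ (-δ) * numLocSoluble a b n m X) ∧
    ((∃ D : ℤ, Squarefree D ∧ Soluble a b n m D) → ∃ c X₀ : ℝ, 0 < c ∧ ∀ X : ℝ, X₀ ≤ X →
      c * X / Real.log X * Real.exp (sumRoots a b n X) ≤ numLocSoluble a b n m X) := by
  refine ⟨?_, (Pool.Agent.Q51.ZC.main hn hm hmn hirr).2.2⟩
  obtain ⟨δ, C, hδ, h⟩ := Pool.Agent.Q51.SZ.main hn hm hmn hirr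
  refine ⟨δ, C, hδ, fun X hX => le_trans ?_ (h X hX)⟩
  unfold numExceptional Pool.Agent.Q51.SZ.numAny
  refine Nat.cast_le.mpr (Pool.Agent.Q51.ZC.count_mono (fun D _ hD => ⟨hD.1, ?_⟩) X)
  by_contra hcon
  apply hD.2
  intro q hq hqm K _ _ hK
  refine nothing (fun h1 => ?_) (fun h2 => ?_) (fun h3 => ?_)
  · exact hcon ⟨q, hq, hqm, K, inferInstance, inferInstance, hK, Or.inl h1⟩
  · exact hcon ⟨q, hq, hqm, K, inferInstance, inferInstance, hK, Or.inr (Or.inl h2)⟩
  · exact hcon ⟨q, hq, hqm, K, inferInstance, inferInstance, hK, Or.inr (Or.inr h3)⟩

end Pool.Agent.Results.MP_2f3286_ag.FermatTwistsOverAllFields
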