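import Mathlib
import Pool.Agent.Q161.SX.All
import Pool.Agent.Q161.SH.SX
import Pool.Agent.Q51.EL.All

/-!
# The section conjecture for 100% of the everywhere locally soluble quadratic twists of a curve

Let `f ∈ ℤ[x]` be irreducible over `ℚ`, of even degree `n ≥ 6`, let `F(x, w)` be its homogenisation and
let `C_D` be the curve `D y² = F(x, w)`, for squarefree integers `D`.  For all but a proportion
`O((log X)^(-δ))` of the `D`, `|D| ≤ X`, for which `C_D` is everywhere locally soluble, `C_D` has no
rational point, and neither the fundamental group of `C_D` nor that of an open subcurve of `C_D` or of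
a smooth curve over `ℚ` which dominates `C_D` has a section.

The fundamental group is described through valuations.  Let `U` be a smooth geometrically connected
curve over `k` with function field `F`, let `Ω` be an algebraic closure of `F`, and let `F_U` be the
maximal extension of `F` inside `Ω` which is unramified over the closed points of `U`, that is, over
their local rings, which are valuation rings of `F`.  Then `π₁(U) = Gal(F_U/F)`, and the map
`π₁(U) → G_k` is the restriction of automorphisms to the algebraic closure of `k` in `Ω`.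

Proof.  Let `L = ℚ(θ)`, `θ` a zero of `f`.  A section `s` for `C_D` gives, at every prime `l ∣ D`
outside a finite set, one zero `r` of `f` fixed by Frobenius such that the Kummer classes of
`(x - i)/(x - r)` are ramified and the ratios `(x - i)/(x - j)`, `i, j ≠ r`, have canonical square roots,
which the Frobenius permutes (parts SecC, SecE of helper623).  Let `v0(l)` be the prime of `L` given by
`r`.  The product of the `v0(l)` and a small ideal has a generator `α ∈ 𝓞 L` whose conjugates are at
most `C |D|^(1/n)`.  The Kummer class of `(x - i)/(x - i0)` is `t i * α_i / α_{i0}` with `t i` in a finite set,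
and the section acts on the square roots by factors from a finite set (the type).  For two
sections of the same type with the same `v0(l)` the product `α α'` is a rational integer times a square
modulo all other primes above `l`.  So the elements `α` of each type lie in few classes
modulo `l`, and the large sieve in dimension `n` bounds their number by
`C X exp(- ∑ (N1 l - tau l)/l)`, `N1 l` the number of the primes of norm `l`.  The number of the everywhere
locally soluble twists is at least `c X / log X * exp(∑ 1/l)`, the sum over the primes `l ≤ X` modulo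
which `f` has a zero; and `∑ N1 l / l ~ log log X`, `tau l ≤ 1` if `N1 l ≥ 1`, `tau l ≤ 3/8` if `l` splits
completely (project EL of helper51).
-/

set_option autoImplicit false

open Polynomial

namespace Pool.Agent.Results.MP_2f3286_ag.LocallySolubleTwists

universe u v w

/-- The homogenisation `F(x, w) = ∑ a_i x^i w^(n-i)` of `f = ∑ a_i x^i`, `n = deg f`. -/
noncomputable def homogenisation (f : ℤ[X]) {R : Type*} [CommRing R] (x w : R) : R :=
  ∑ i ∈ Finset.range (f.natDegree + 1), (f.coeff i : R) * x ^ i * w ^ (f.natDegree - i)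

/-- The curve `C_D : D y² = F(x, w)` has a point over the field `K`. -/
def CurvePoint (f : ℤ[X]) (D : ℤ) (K : Type) [Field K] : Prop :=
  ∃ x w y : K, (x ≠ 0 ∨ w ≠ 0) ∧ (D : K) * y ^ 2 = homogenisation f x w

/-- `C_D` is everywhere locally soluble: it has points over `ℝ` and over `ℚ_p` for all primes `p`. -/
def LocallySoluble (f : ℤ[X]) (D : ℤ) : Prop :=
  CurvePoint f D ℝ ∧ ∀ (p : ℕ) [Fact p.Prime], CurvePoint f D ℚ_[p]

section definitions

variable (k : Type u) (F : Type v) (Ω : Type w) [Field k] [Field F] [Field Ω] [Algebra k F]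
  [Algebra F Ω] [Algebra k Ω]

/-- The inertia group of the valuation ring `W` of `Ω`, as a subgroup of `Gal(Ω/F)`: the
automorphisms of `Ω` over `F` that map `W` onto itself and act as the identity on its residue
field. -/
noncomputable def inertia (W : ValuationSubring Ω) : Subgroup (Ω ≃ₐ[F] Ω) :=
  (W.inertiaSubgroup F).map (W.decompositionSubgroup F).subtype

/-- `F_U`, for a set `U` of valuation rings of `F`: the elements of `Ω` fixed by the inertia groups
of all valuation rings `W` of `Ω` with `W ∩ F ∈ U`.  If `Ω` is an algebraic closure of a field `F`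
of characteristic zero, this is the maximal extension of `F` in `Ω` unramified over `U`. -/
noncomputable def unramified (U : Set (ValuationSubring F)) : IntermediateField F Ω :=
  ⨅ W : {W : ValuationSubring Ω // W.comap (algebraMap F Ω) ∈ U},
    IntermediateField.fixedField (inertia F Ω W.1)

/-- The map `τ : M → M` acts as `σ : K → K` on the elements that the fields `K` and `M` have in
common when they are regarded as subfields of `Ω` through `i` and `j`. -/
def ActsAs {K M Ω : Type*} [Field K] [Field M] [Field Ω] (i : K →+* Ω) (j : M →+* Ω) (σ : K → K)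
    (τ : M → M) : Prop :=
  ∀ c z, j z = i c → j (τ z) = i (σ c)

/-- Let `k ⊆ K ⊆ Ω` and `F ⊆ M ⊆ Ω` be fields.  A splitting of `Gal(M/F) → Gal(K/k)`: a continuous
homomorphism `s` from `Gal(K/k)` to `Gal(M/F)` such that `s(σ)` acts as `σ` on the elements of
`K ∩ M`. -/
structure Splitting (K M : Type*) [Field K] [Field M] [Algebra k K] [Algebra F M] [Algebra K Ω]
    [Algebra M Ω] where
  /-- the homomorphism `Gal(K/k) → Gal(M/F)` -/
  toHom : (K ≃ₐ[k] K) →* (M ≃ₐ[F] M)
  cont : Continuous toHom
  compat : ∀ σ : K ≃ₐ[k] K, ActsAs (algebraMap K Ω) (algebraMap M Ω) σ (toHom σ)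

/-- The sections of `π₁(U) = Gal(F_U/F) → G_k`: the continuous homomorphisms `s` from
`G_k = Gal(k̄/k)` to `Gal(F_U/F)`, where `k̄` is the algebraic closure of `k` in `Ω`, such that
`s(σ)` acts as `σ` on the elements of `k̄`. -/
def GaloisSection (U : Set (ValuationSubring F)) : Type w :=
  Splitting k F Ω (algebraicClosure k Ω) (unramified F Ω U)

end definitions

/-- Let `F` be any field over `ℚ` that contains a point `(x, y)` of the curve `D y² = f(x)`, for
instance the function field of `C_D` or of a curve that dominates `C_D`, and let `Ω` be an algebraic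
closure of `F`.  Then for every set `U` of valuation rings of `F` over `ℚ` there is no section of
`π₁(U) → G_ℚ`.  If `F` is the function field of a curve over `ℚ`, such `U` are given by its smooth
projective model and by all open subcurves of it. -/
def NoSection (f : ℤ[X]) (D : ℤ) : Prop :=
  ∀ (F : Type v) (Ω : Type w) [Field F] [Field Ω] [Algebra ℚ F] [Algebra F Ω] [Algebra ℚ Ω]
    [IsScalarTower ℚ F Ω] [IsAlgClosure F Ω] (x y : F) (U : Set (ValuationSubring F)),
    (D : F) * y ^ 2 = aeval x f → (∀ O ∈ U, ∀ c : ℚ, algebraMap ℚ F c ∈ O) →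
      IsEmpty (GaloisSection ℚ F Ω U)

/-- `C_D` has a rational point, or `C_D`, an open subcurve or a curve that dominates `C_D` has a
section. -/
def Exceptional (f : ℤ[X]) (D : ℤ) : Prop :=
  CurvePoint f D ℚ ∨ ¬ NoSection.{v, w} f D

/-- The primes `q ≤ X` modulo which `f` has a zero. -/
def rootPrimes (f : ℤ[X]) (X : ℝ) : Set ℕ :=
  {q : ℕ | q.Prime ∧ (q : ℝ) ≤ X ∧ ∃ r : ℤ, (q : ℤ) ∣ f.eval r}

/-- The number of the squarefree `D` with `|D| ≤ X` and the property `P`. -/
noncomputable def count (P : ℤ → Prop) (X : ℝ) : ℕ :=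
  {D : ℤ | Squarefree D ∧ |(D : ℝ)| ≤ X ∧ P D}.ncard

lemma toSection {k : Type u} {F : Type v} {Ω : Type w} [Field k] [Field F] [Field Ω] [Algebra k F]
    [Algebra F Ω] [Algebra k Ω] {U : Set (ValuationSubring F)} (G : GaloisSection k F Ω U) :
    Nonempty (Pool.Agent.W620.SC.GSection k F Ω U) :=
  ⟨⟨G.toHom, G.cont, G.compat⟩⟩

theorem result (f : ℤ[X]) (hf : Irreducible (f.map (Int.castRingHom ℚ))) (hev : Even f.natDegree)
    (hn : 6 ≤ f.natDegree) :
    ∃ δ C c X₀ : ℝ, 0 < δ ∧ 0 < c ∧ ∀ X : ℝ, X₀ ≤ X →
      (count (Exceptional.{v, w} f) X : ℝ) ≤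
        C * Real.log X ^ (-δ) * (count (LocallySoluble f) X : ℝ) ∧
      c * X / Real.log X * Real.exp (∑' q : rootPrimes f X, (1 : ℝ) / (q : ℕ)) ≤
        (count (LocallySoluble f) X : ℝ) := by
  classical
  obtain ⟨δ, C, X1, hδ, h1⟩ := Pool.Agent.Q161.SX.bad_count Pool.Agent.Q161.SH.secx.{v, w}
    Pool.Agent.Q16.SX.tra Pool.Agent.Q161.SX.t_fin Pool.Agent.Q51.EL.main f hf hev hn
  obtain ⟨-, -, -, c, X2, hc, h2⟩ := Pool.Agent.Q51.EL.main f hf hev hn
  have hcount : ∀ (P : ℤ → Prop) (X : ℝ),
      {D : ℤ | (D.natAbs : ℝ) ≤ X ∧ Squarefree D ∧ P D}.ncard = count P X := by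
    intro P X
    unfold count
    congr 1
    ext D
    simp only [Set.mem_ofPred_eq, Nat.cast_natAbs, Int.cast_abs]
    tauto
  refine ⟨δ, C, c, max X1 X2, hδ, hc, fun X hX => ⟨?_, ?_⟩⟩
  · have h3 := h1 X ((le_max_left _ _).trans hX)
    rw [hcount (Pool.Agent.Q51.EL.ELS f)] at h3
    refine le_trans ?_ h3
    rw [← hcount]
    have hsub : {D : ℤ | (D.natAbs : ℝ) ≤ X ∧ Squarefree D ∧ Exceptional.{v, w} f D} ⊆
        {D : ℤ | (D.natAbs : ℝ) ≤ X ∧ Squarefree D ∧ Pool.Agent.Q161.SX.Bad.{v, w} f D} := by
      rintro D ⟨h4, h5, h6 | h6⟩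
      · exact ⟨h4, h5, Or.inl h6⟩
      · refine ⟨h4, h5, Or.inr ?_⟩
        unfold NoSection at h6
        push Not at h6
        obtain ⟨F, Ω, i1, i2, i3, i4, i5, i6, i7, x, y, U, hxy, hU, hG⟩ := h6
        obtain ⟨G⟩ := hG
        exact ⟨F, Ω, i1, i2, i3, i4, i5, i6, IsAlgClosure.isAlgClosed F, IsAlgClosure.isAlgebraic,
          U, x, y, hU, toSection G, hxy⟩
    exact_mod_cast Set.ncard_le_ncard hsub (Pool.Agent.Q161.SX.natAbs_finite X _)
  · rw [← hcount]
    have h5 := h2 X ((le_max_right _ _).trans hX)
    rw [Pool.Agent.Q91.EL.Gf_eq] at h5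
    have h6 : (∑' q : rootPrimes f X, (1 : ℝ) / (q : ℕ)) =
        ∑ q ∈ (Pool.Agent.Q51.EL.pr X).filter (fun q : ℕ => ∃ r : ℤ, (q : ℤ) ∣ f.eval r),
          (1 : ℝ) / q := by
      have hs : rootPrimes f X = ((Pool.Agent.Q51.EL.pr X).filter
          (fun q : ℕ => ∃ r : ℤ, (q : ℤ) ∣ f.eval r) : Finset ℕ) := by
        ext q
        simp only [rootPrimes, Set.mem_ofPred_eq, Finset.coe_filter, Pool.Agent.Q51.EL.pr,
          Finset.mem_filter, Finset.mem_Icc]
        constructor
        · rintro ⟨ha, hb, hc⟩
          exact ⟨⟨⟨ha.one_le, Nat.le_floor hb⟩, ha⟩, hc⟩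
        · rintro ⟨⟨⟨ha, hb⟩, hc⟩, hd⟩
          exact ⟨hc, (Nat.le_floor_iff' hc.ne_zero).1 hb, hd⟩
      rw [hs]
      exact Finset.tsum_subtype _ (fun q : ℕ => (1 : ℝ) / q)
    rw [h6]
    exact h5

end Pool.Agent.Results.MP_2f3286_ag.LocallySolubleTwists
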