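import Pool.Agent.Q161.OD.Fnl
import Pool.Agent.Q161.OD.Sqf

/-!
# The mod 2 section conjecture for 100% of all quadratic twists of a hyperelliptic curve

Let `f ∈ ℤ[x]` be irreducible over `ℚ`, of odd degree `n ≥ 5`, with leading coefficient `a`, and let `C_D`
be the curve `D y² = f(x)` of genus `(n - 1)/2`, for squarefree integers `D`.  It has the rational point
`∞`.  Let `Y_D → C_D` be the 2-covering of `∞`: the maximal unramified covering of `C_D` which is
geometrically abelian of exponent `2` and has a rational point above `∞`.  It is given by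
`a D (x - θ) = η(θ)²` for the zeros `θ` of `f`, with a polynomial `η` of degree `< n` (the coefficients of
`η` are the coordinates of the point above `(x, y)`).

**Theorem.**  For 100% of all squarefree integers `D` (natural density), every section `s` of the
fundamental group of `C_D` lifts to the fundamental group of `Y_D`: there is such a polynomial `η`
with coefficients fixed by `s(G_ℚ)`.  So `s` and the section of `∞` have the same class in
`H¹(ℚ, J_D[2])`.  The same is true for the sections of open subcurves of `C_D` and of the curves which
dominate `C_D`, for birational sections, for the sections of the geometrically pro-2 fundamental group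
and of the other quotients of the fundamental group whose fields are closed under square roots, and for
the rational points (`F = ℚ`).

The coefficients of `η` are the coordinates of a point of the fixed curve
`V = {[η] ∈ P(ℚ[X]/(f)) : η² ∈ ⟨1, θ⟩}` of genus `1 + (n - 4) 2^(n-3) ≥ 5`, which does not depend on `D`, and
of which `Y_D` is a double covering.  (With Faltings' theorem for `V`, which is not used here, it follows
that `C_D(ℚ) = {∞}` for 100% of all squarefree `D`.)

The fundamental group is described through valuations.  Let `U` be a smooth geometrically connected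
curve over `k` with function field `F`, let `Ω` be an algebraic closure of `F`, and let `F_U` be the
maximal extension of `F` inside `Ω` which is unramified over the closed points of `U`, that is, over
their local rings, which are valuation rings of `F`.  Then `π₁(U) = Gal(F_U/F)`, and the map
`π₁(U) → G_k` is the restriction of automorphisms to the algebraic closure of `k` in `Ω`.

Proof.  Let `L = ℚ(θ)`.  By the local theory of sections (parts SecC, SecE of helper623) a section `s`
for `C_D` is concentrated, at every prime `l ∣ D` outside a finite set, at one branch point fixed by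
Frobenius: `∞` or a zero of `f`, that is, a prime `v0(l)` of `L` above `l` of degree one.  Let `m` be the
product of the `l` of the first kind.  The product of the `v0(l)` for the other `l` and a small ideal has a
generator `α ∈ 𝓞 L` whose conjugates are at most `C (|D|/m)^(1/n)`, and the Kummer classes of `x - θ` are
those of `m α` up to a finite set (the type).  The pairs `(α, m)` of one type satisfy local conditions
modulo all primes `l`: `α` is a unit at `l` or contained in exactly one prime `v0` above `l`, and then
`m m' α α'` is a square modulo all other primes above `l` for any two such pairs; and if `l ∣ m` then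
`α α'` is a rational number times a square modulo `l`.  The large sieve in dimension `n + 1` for dyadic
boxes, Chebotarev's and Mertens' theorems show that the number of the pairs with `α` and `m` large is
`o(X)`; for bounded `m` one uses the large sieve in dimension `n` (project EL of helper51); and for bounded
`α`, if the class of `α` is not trivial, `m` has no prime factor in a set of primes of positive density.
If the class of `α` is trivial then the section has the class of `∞`.  For the rational points the same
is done for all everywhere locally soluble 2-coverings.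

(helper161, with lemmas of helper211, helper277, helper26, helper225, helper224, helper111, helper166,
helper237, helper151, helper96, helper239, helper623.)
-/

set_option autoImplicit false

open Polynomial Filter

namespace Pool.Agent.Results.MP_2f3286_ag.OddDegreeTwists

universe u v w

section definitions

variable (k : Type u) (F : Type v) (Ω : Type w) [Field k] [Field F] [Field Ω] [Algebra k F]
  [Algebra F Ω] [Algebra k Ω]

/-- The inertia group of the valuation ring `W` of `Ω`, as a subgroup of `Gal(Ω/F)`: the
automorphisms of `Ω` over `F` that map `W` onto itself and act as the identity on its residue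
field. -/
noncomputable def inertia (W : ValuationSubring Ω) : Subgroup (Ω ≃ₐ[F] Ω) :=
  (W.inertiaSubgroup F).map (W.decompositionSubgroup F).subtype

/-- `F_U`, for a set `U` of valuation rings of `F`: the elements of `Ω` fixed by the inertia groups
of all valuation rings `W` of `Ω` with `W ∩ F ∈ U`.  If `Ω` is an algebraic closure of a field `F`
of characteristic zero, this is the maximal extension of `F` in `Ω` unramified over `U`. -/
noncomputable def unramified (U : Set (ValuationSubring F)) : IntermediateField F Ω :=
  ⨅ W : {W : ValuationSubring Ω // W.comap (algebraMap F Ω) ∈ U},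
    IntermediateField.fixedField (inertia F Ω W.1)

/-- The map `τ : M → M` acts as `σ : K → K` on the elements that the fields `K` and `M` have in
common when they are regarded as subfields of `Ω` through `i` and `j`. -/
def ActsAs {K M Ω : Type*} [Field K] [Field M] [Field Ω] (i : K →+* Ω) (j : M →+* Ω) (σ : K → K)
    (τ : M → M) : Prop :=
  ∀ c z, j z = i c → j (τ z) = i (σ c)

/-- Let `k ⊆ K ⊆ Ω` and `F ⊆ M ⊆ Ω` be fields.  A splitting of `Gal(M/F) → Gal(K/k)`: a continuous
homomorphism `s` from `Gal(K/k)` to `Gal(M/F)` such that `s(σ)` acts as `σ` on the elements of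
`K ∩ M`. -/
structure Splitting (K M : Type*) [Field K] [Field M] [Algebra k K] [Algebra F M] [Algebra K Ω]
    [Algebra M Ω] where
  /-- the homomorphism `Gal(K/k) → Gal(M/F)` -/
  toHom : (K ≃ₐ[k] K) →* (M ≃ₐ[F] M)
  cont : Continuous toHom
  compat : ∀ σ : K ≃ₐ[k] K, ActsAs (algebraMap K Ω) (algebraMap M Ω) σ (toHom σ)

/-- The field `N` belongs to a quotient of `π₁(U) = Gal(F_U/F)` over `G_k` of the following kind: it
lies between the constants and `F_U`, and it is closed under square roots in `F_U`.  Examples:
`N = F_U`, and the field of the geometrically pro-2 fundamental group. -/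
structure SquareRootClosed (U : Set (ValuationSubring F)) (N : IntermediateField F Ω) :
    Prop where
  le : N ≤ unramified F Ω U
  constants : ∀ c : algebraicClosure k Ω, (c : Ω) ∈ N
  sqrt : ∀ z ∈ unramified F Ω U, z ^ 2 ∈ N → z ∈ N

/-- The sections of `Gal(N/F) → G_k`, for an extension `N` of `F` that contains the constants: the
continuous homomorphisms `s` from `G_k = Gal(k̄/k)` to `Gal(N/F)`, where `k̄` is the algebraic closure of
`k` in `Ω`, such that `s(σ)` acts as `σ` on the elements of `k̄`. -/
def GaloisSection (N : IntermediateField F Ω) : Type w :=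
  Splitting k F Ω (algebraicClosure k Ω) N

variable {k F Ω}

/-- The section `s` lifts to the 2-covering `Y_D` of the point `∞` of `C_D : D y² = f(x)`: there is a
polynomial `η` with coefficients in `N` fixed by all `s(σ)`, such that `a D (x - θ) = η(θ)²` for all
zeros `θ` of `f`, where `a` is the leading coefficient of `f`. -/
def LiftsToCovering (f : ℤ[X]) (D : ℤ) (x : F) {N : IntermediateField F Ω}
    (s : GaloisSection k F Ω N) : Prop :=
  ∃ η : N[X], (∀ σ i, s.toHom σ (η.coeff i) = η.coeff i) ∧ ∀ θ : Ω, aeval θ f = 0 →
    ((f.leadingCoeff * D : ℤ) : Ω) * (algebraMap F Ω x - θ) = aeval θ η ^ 2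

end definitions

/-- All sections of the fundamental groups attached to `C_D` lift to the 2-covering `Y_D` of `∞`.

Here `F` is any field over `ℚ` that contains a point `(x, y)` of the curve `D y² = f(x)`, for instance
the function field of `C_D` or of a curve that dominates `C_D`, or `F = ℚ` if `(x, y)` is a rational
point; `Ω` is an algebraic closure of `F`, and `U` is a set of valuation rings of `F` over `ℚ` (if `F` is
the function field of a curve over `ℚ`, such `U` are given by its smooth projective model, by all
open subcurves of it, and by the empty set, for birational sections). -/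
def SectionsLift (f : ℤ[X]) (D : ℤ) : Prop :=
  ∀ (F : Type v) (Ω : Type w) [Field F] [Field Ω] [Algebra ℚ F] [Algebra F Ω] [Algebra ℚ Ω]
    [IsScalarTower ℚ F Ω] [IsAlgClosure F Ω] (x y : F) (U : Set (ValuationSubring F))
    (N : IntermediateField F Ω), (D : F) * y ^ 2 = aeval x f →
      (∀ O ∈ U, ∀ c : ℚ, algebraMap ℚ F c ∈ O) → SquareRootClosed ℚ F Ω U N →
        ∀ s : GaloisSection ℚ F Ω N, LiftsToCovering f D x s

/-- The number of the squarefree integers `D` with `|D| ≤ X` and the property `P`. -/
noncomputable def count (P : ℤ → Prop) (X : ℝ) : ℕ :=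
  {D : ℤ | Squarefree D ∧ |(D : ℝ)| ≤ X ∧ P D}.ncard

/-- The property `P` holds for 100% of all squarefree integers `D`, in the sense of natural density. -/
def HoldsForAlmostAll (P : ℤ → Prop) : Prop :=
  Tendsto (fun X : ℝ => (count P X : ℝ) / (count (fun _ => True) X : ℝ)) atTop (nhds 1)

lemma toNSec {k : Type u} {F : Type v} {Ω : Type w} [Field k] [Field F] [Field Ω] [Algebra k F]
    [Algebra F Ω] [Algebra k Ω] {N : IntermediateField F Ω} (s : GaloisSection k F Ω N) :
    ∃ G : Pool.Agent.Q161.OD.NSec k F Ω N, G.toHom = s.toHom :=
  ⟨⟨s.toHom, s.cont, s.compat⟩, rfl⟩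

lemma toSqC {k : Type u} {F : Type v} {Ω : Type w} [Field k] [Field F] [Field Ω] [Algebra k F]
    [Algebra F Ω] [Algebra k Ω] {U : Set (ValuationSubring F)} {N : IntermediateField F Ω}
    (h : SquareRootClosed k F Ω U N) : Pool.Agent.Q161.OD.SqC k F Ω U N :=
  ⟨h.le, h.constants, h.sqrt⟩

theorem result (f : ℤ[X]) (hf : Irreducible (f.map (Int.castRingHom ℚ))) (hodd : Odd f.natDegree)
    (hn : 5 ≤ f.natDegree) : HoldsForAlmostAll (SectionsLift.{v, w} f) := by
  classical
  have h0 := Pool.Agent.Q161.OD.tendsto_of_le _
    (Pool.Agent.Q161.OD.bdl_density.{v, w} f hf hn hodd)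
  obtain ⟨X1, hX1⟩ := Pool.Agent.Q161.OD.sqf_lower
  have hset : ∀ X : ℝ, {D : ℤ | (D.natAbs : ℝ) ≤ X ∧ Squarefree D}.ncard =
      count (fun _ => True) X := by
    intro X
    unfold count
    congr 1
    ext D
    simp only [Set.mem_ofPred_eq, Nat.cast_natAbs, Int.cast_abs]
    tauto
  have hfin : ∀ (P : ℤ → Prop) (X : ℝ), {D : ℤ | (D.natAbs : ℝ) ≤ X ∧ P D}.Finite :=
    fun P X => Pool.Agent.Q161.SX.natAbs_finite X P
  unfold HoldsForAlmostAll
  rw [Metric.tendsto_atTop] at h0 ⊢
  intro ε hε
  obtain ⟨X0, hX0⟩ := h0 ε hε
  refine ⟨max (max X0 X1) 1, fun X hX => ?_⟩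
  have h1 := hX0 X (((le_max_left _ _).trans (le_max_left _ _)).trans hX)
  have h2 := hX1 X (((le_max_right _ _).trans (le_max_left _ _)).trans hX)
  have hX1' : 1 ≤ X := (le_max_right _ _).trans hX
  rw [hset] at h1 h2
  have hpos : (0 : ℝ) < (count (fun _ => True) X : ℝ) := by
    refine lt_of_lt_of_le ?_ h2
    positivity
  have h3 : count (SectionsLift.{v, w} f) X ≤ count (fun _ => True) X := by
    refine Set.ncard_le_ncard (fun D hD => ⟨hD.1, hD.2.1, trivial⟩) ?_
    refine (hfin (fun _ => True) X).subset ?_
    rintro D ⟨-, hD, -⟩
    refine ⟨?_, trivial⟩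
    rw [Nat.cast_natAbs, Int.cast_abs]
    exact hD
  have h4 : count (fun _ => True) X ≤ count (SectionsLift.{v, w} f) X +
      {D : ℤ | (D.natAbs : ℝ) ≤ X ∧ Squarefree D ∧ Pool.Agent.Q161.OD.BdL.{v, w} f D}.ncard := by
    refine le_trans ?_ (Set.ncard_union_le _ _)
    have hfinU : ({D : ℤ | Squarefree D ∧ |(D : ℝ)| ≤ X ∧ SectionsLift.{v, w} f D} ∪
        {D : ℤ | (D.natAbs : ℝ) ≤ X ∧ Squarefree D ∧
          Pool.Agent.Q161.OD.BdL.{v, w} f D}).Finite := by
      refine Set.Finite.union ?_ (hfin _ X)
      refine (hfin (fun _ => True) X).subset ?_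
      rintro D ⟨-, hD, -⟩
      refine ⟨?_, trivial⟩
      rw [Nat.cast_natAbs, Int.cast_abs]
      exact hD
    refine Set.ncard_le_ncard ?_ hfinU
    rintro D ⟨h5, h6, -⟩
    by_cases h7 : SectionsLift.{v, w} f D
    · exact Or.inl ⟨h5, h6, h7⟩
    · right
      refine ⟨by rw [Nat.cast_natAbs, Int.cast_abs]; exact h6, h5, ?_⟩
      by_contra h8
      apply h7
      intro F Ω i1 i2 i3 i4 i5 i6 i7 x y U N hxy hU hN s
      by_contra h9
      obtain ⟨G, hG⟩ := toNSec s
      refine h8 ⟨F, Ω, i1, i2, i3, i4, i5, i6, IsAlgClosure.isAlgClosed F,
        IsAlgClosure.isAlgebraic, U, N, x, y, G, hU, toSqC hN, hxy, ?_⟩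
      rintro ⟨η, h10, h11⟩
      refine h9 ⟨η, fun σ i => ?_, fun θ hθ => (h11 θ hθ).symm⟩
      rw [← hG]
      exact h10 σ i
  have h5 : (count (fun _ => True) X : ℝ) ≤ (count (SectionsLift.{v, w} f) X : ℝ) +
      (({D : ℤ | (D.natAbs : ℝ) ≤ X ∧ Squarefree D ∧
        Pool.Agent.Q161.OD.BdL.{v, w} f D}.ncard : ℕ) : ℝ) := by exact_mod_cast h4
  have h3' : (count (SectionsLift.{v, w} f) X : ℝ) ≤ (count (fun _ => True) X : ℝ) := by
    exact_mod_cast h3
  rw [Real.dist_eq, sub_zero, abs_of_nonneg (by positivity)] at h1
  rw [Real.dist_eq, abs_lt]
  rw [div_lt_iff₀ hpos] at h1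
  constructor
  · rw [lt_sub_iff_add_lt, lt_div_iff₀ hpos]
    nlinarith
  · have h6 : (count (SectionsLift.{v, w} f) X : ℝ) / (count (fun _ => True) X : ℝ) ≤ 1 :=
      (div_le_one hpos).2 h3'
    linarith

end Pool.Agent.Results.MP_2f3286_ag.OddDegreeTwists
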