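import Pool.Agent.Q33.BSec.Gen

/-!
# Locally geometric sections over number fields with few contacts with closed points

`K` is a number field, `F` the function field of a smooth curve `U` over `K`, `C` the set of the
local rings of the closed points of `U`, `Ω` an algebraic closure of `F`, and `unramified F Ω C` the
maximal extension of `F` in `Ω` that is unramified over `U` (so that its Galois group over `F` is the
fundamental group of `U`). `GalSection K F (unramified F Ω C) B` is the type of the sections of
`π₁(U) → Gal(B/K)`, where `B` is an algebraic closure of `K`. The closed points of the affine line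
over `K` are given by elements `θ` of `B`, and `minpoly K θ` is the equation of the point.
-/

set_option autoImplicit false

namespace Pool.Agent.Results.MP_2f3286_ag.SectionsWithFewContacts

open Polynomial IsDedekindDomain
open NumberField (IsCMField maximalRealSubfield)
open Pool.Agent.TH954 (GalSection Plc)
open Pool.Agent.W620.SC (unramified)
open scoped NumberField

section defs

variable {K F M Ω B : Type} [Field K] [Field F] [Field M] [Field Ω] [Field B] [Algebra F M]
  [Algebra K M] [Algebra F Ω] [Algebra K Ω] [Algebra K B] {r : ℕ}

/-- the closed points of the line given by the `θ i` are different -/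
def Different (K : Type) [Field K] [Algebra K B] (θ : Fin r → B) : Prop :=
  ∀ i i', i ≠ i' → minpoly K (θ i) ≠ minpoly K (θ i')

/-- The number field `K` has degree at most `r`; or it contains a CM field and has degree at most
`2 r`; or it is a CM field and three of the points `θ i` are rational points `c 0`, `c 1`, `c 2` for
which `(c 1 - c 0) / (c 2 - c 0)` is not totally real. -/
def EnoughPoints (K : Type) [Field K] [NumberField K] [Algebra K B] (θ : Fin r → B) : Prop :=
  Module.finrank ℚ K ≤ r ∨
  (Module.finrank ℚ K ≤ 2 * r ∧ ∃ L : IntermediateField ℚ K, IsCMField L) ∨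
  (IsCMField K ∧ ∃ c : Fin 3 → K, (∀ k, ∃ i, θ i = algebraMap K B (c k)) ∧
    (c 1 - c 0) / (c 2 - c 0) ∉ maximalRealSubfield K)

/-- `x` is a morphism from the curve with the local rings `C` to the line minus the points `θ i` -/
def IsMorphism [Algebra K F] (C : Set (ValuationSubring F)) (x : F) (θ : Fin r → B) : Prop :=
  ∀ O ∈ C, x ∈ O ∧ ∀ i, (aeval x (minpoly K (θ i)))⁻¹ ∈ O

/-- The section `s` is given over the extension `L` of `K` by the place `P` of `M` with values in the
algebraic closure `A` of `L`: whenever `σ ∈ Gal(A/L)` and `g ∈ Gal(B/K)` are compatible on `B`, the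
place turns `s g` into `σ`. -/
def Compatible (s : GalSection K F M B) (L : Type) {A : Type} [Field L] [Field A] [Algebra L A]
    [Algebra K A] (P : Plc K M A) : Prop :=
  ∀ (σ : A ≃ₐ[L] A) (g : B ≃ₐ[K] B),
    (∀ z c, P.val (s.j z) c → P.val (s.j (g z)) (σ c)) →
    ∀ y c, P.val y c → P.val (s.s g y) (σ c)

/-- The section `s` is given over each completion of the number field `K` by a point at which the
function `x` has a finite value `X v`, which is none of the points `θ i`. The contacts of the `X v`
with the `θ i` are few: for some positive `N` and all but finitely many `v` they are zero or not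
divisible by `N` (for example bounded by `N - 1`). -/
structure LocalPoints [NumberField K] (s : GalSection K F M B) (x : F) (θ : Fin r → B) where
  /-- the points -/
  P : ∀ v : HeightOneSpectrum (𝓞 K), Plc K M (AlgebraicClosure (v.adicCompletion K))
  compatible : ∀ v, Compatible s (v.adicCompletion K) (P v)
  /-- the values of `x` -/
  X : ∀ v : HeightOneSpectrum (𝓞 K), v.adicCompletion K
  val : ∀ v, (P v).val (algebraMap F M x) (algebraMap _ _ (X v))
  ne : ∀ (v : HeightOneSpectrum (𝓞 K)) (i : Fin r), aeval (X v) (minpoly K (θ i)) ≠ 0
  few : ∃ N : ℕ, 0 < N ∧ ∀ᶠ v in Filter.cofinite, ∀ (i : Fin r) (k : ℤ),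
    Valued.v (aeval (X v) (minpoly K (θ i))) = WithZero.exp ((N : ℤ) * k) → k = 0

/-- The section `s` has the same Kummer classes as the rational point `ξ`: for all `i` and `N`, the
function `(x - θ i) / (ξ - θ i)` is the `N`-th power of an element fixed by `s g` for all `g` that fix
`θ i`. -/
def SameKummerClasses (s : GalSection K F M B) (x : F) (θ : Fin r → B) (ξ : K) : Prop :=
  ∀ (i : Fin r) (N : ℕ), 0 < N → ∃ w : M,
    w ^ N = (algebraMap F M x - s.j (θ i)) / (algebraMap K M ξ - s.j (θ i)) ∧
    ∀ g : B ≃ₐ[K] B, g (θ i) = θ i → s.s g w = w

/-- the section `s'` of `Gal(Ω/F) → Gal(B/K)` is a lift of the section `s` of `π₁(U)` -/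
def IsLift {C : Set (ValuationSubring F)} [Algebra K (unramified F Ω C)]
    (s : GalSection K F (unramified F Ω C) B) (s' : GalSection K F Ω B) : Prop :=
  ∀ (g : B ≃ₐ[K] B) (y : unramified F Ω C), s'.s g (y : Ω) = (s.s g y : Ω)

end defs

/-- Let `U` be a smooth curve over the number field `K`, `x` a nonconstant function, and `θ i` enough
different closed points of the line: `[K : ℚ] ≤ r`, or `[K : ℚ] ≤ 2 r` and `K` contains a CM field, or
the third case of `EnoughPoints`.

(1) Let `x` be a morphism from `U` to the line minus the `θ i`, and `s` a section of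
`π₁(U) → Gal(B/K)` that over all completions of `K` is given by points with few contacts with the
`θ i`. Then all the values of `x` at these points are one element `ξ` of `K`, and `s` has the same
Kummer classes as `ξ`, that is, the image of `s` in the geometrically abelian fundamental group of the
line minus the `r` closed points is that of the rational point `ξ`.

(2) Let `s` be a section of `π₁(U) → Gal(B/K)` that lifts to a section `s'` of the absolute Galois
group of `F`, such that `s'` is given over all completions of `K` by points with few contacts with the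
`θ i`. Then `s` is the section of a rational point of `U` or a cuspidal section: it arises from the
local ring of a rational point of the smooth compactification, at which `x` has the value `ξ`; and `s'`
arises from this point only. -/
theorem result (K F Ω B : Type) [Field K] [NumberField K] [Field F] [Field Ω] [Field B]
    [Algebra K F] [Algebra F Ω] [Algebra K Ω] [IsScalarTower K F Ω] [IsAlgClosure F Ω]
    [Algebra K B] [IsAlgClosure K B]
    (C : Set (ValuationSubring F)) (hC : ∀ O ∈ C, ∀ c : K, algebraMap K F c ∈ O)
    (x : F) (hx : Transcendental K x)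
    (hF : Algebra.IsAlgebraic (IntermediateField.adjoin K {x}) F)
    {r : ℕ} (θ : Fin r → B) (hθ : Different K θ) (enough : EnoughPoints K θ) :
    (∀ (s : GalSection K F (unramified F Ω C) B) (pts : LocalPoints s x θ),
      IsMorphism (K := K) C x θ →
      ∃ ξ : K, (∀ i, (minpoly K (θ i)).eval ξ ≠ 0) ∧
        (∀ v, pts.X v = algebraMap K (v.adicCompletion K) ξ) ∧ SameKummerClasses s x θ ξ) ∧
    ∀ (s : GalSection K F (unramified F Ω C) B) (s' : GalSection K F Ω B), IsLift s s' →
      ∀ pts : LocalPoints s' x θ,
      ∃ ξ : K, (∀ v, pts.X v = algebraMap K (v.adicCompletion K) ξ) ∧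
        ∃ O : ValuationSubring F, s.ArisesFrom O ∧ O.valuation (x - algebraMap K F ξ) < 1 ∧
          ∀ O' : ValuationSubring F, s'.ArisesFrom O' ↔ O' = O := by
  have h2 : Algebra.IsAlgebraic F Ω := IsAlgClosure.isAlgebraic
  have h5 : Algebra.IsAlgebraic F (unramified F Ω C) :=
    Algebra.IsAlgebraic.tower_bot (K := F) (L := unramified F Ω C) (A := Ω)
  refine ⟨?_, ?_⟩
  · intro s pts hxm
    obtain ⟨P, hP, X, hX, hne, N, hN, few⟩ := pts
    have : Fact (Nat.Prime 2) := ⟨Nat.prime_two⟩
    obtain ⟨φ0⟩ : Nonempty (K →+* PadicAlgCl 2) := inferInstance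
    exact Pool.Agent.Q33.BSec.main_gen s x θ hθ enough
      (Pool.Agent.Q33.BSec.roots_unr C hC θ x hxm s (P (Pool.Agent.TH841.NF.pls φ0)) _ (hX _)
        (fun i => by
          rw [aeval_algebraMap_apply]
          exact (_root_.map_ne_zero _).2 (hne _ i))) P hP X hX hne N hN few
  · intro s s' hl pts
    obtain ⟨P, hP, X, hX, hne, N, hN, few⟩ := pts
    obtain ⟨ξ, h3, O, h4, h6, h7⟩ :=
      Pool.Agent.Q33.BSec.main s' x hx hF θ hθ enough P hP X hX hne N hN few
    refine ⟨ξ, h3, O, Pool.Agent.Q33.BSec.arises_of_lift C s s' hl O h4, h6, fun O' => ⟨h7 O', ?_⟩⟩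
    rintro rfl
    exact h4

end Pool.Agent.Results.MP_2f3286_ag.SectionsWithFewContacts
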